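import Pool.Agent.U183.SG.Stab
import Pool.Agent.U183.SG.Dual

/-!
# Spectral bound and growth bound of positive groups on Hilbert space

For every real Hilbert space `H ≠ 0` ordered by a closed, normal and generating cone, and every
strongly continuous group of positive operators on its complexification, the spectral bound of the
generator is equal to the growth bound of the group.

Sketch of the proof. Let `b > s(A)`, `b` real. The resolvent `R(c, A)` is positive for all real
`c ≥ b` (Neumann series, going down from large `c`), so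
`∫_0^t e^{-bs} ⟨T_s x, y⟩ ds ≤ ⟨R(b, A) x, y⟩` for `x` in the cone and `y` in the dual cone. The cone
and the dual cone (Krein) generate, so the orbits of `U_s = e^{-bs} T_s` are weakly integrable, and
the operators `∑ c_n ∫_{nh}^{(n+1)h} U_s ds`, `|c_n| ≤ 1`, are bounded uniformly in `c`, `h` and the
number of terms. Parseval's identity for finite sequences of vectors of the Hilbert space shows that
the discrete convolution with `∫_{nh}^{(n+1)h} U_s ds` is bounded in `ℓ²`, and the choice of the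
sequence `e^{-anh} U_{nh} x` gives `∫_1^∞ ‖U_s x‖² ds ≤ C ‖x‖²` (with Riemann sums in the place of the
integral). Hence `‖U_t‖ → 0`, and `‖T_t‖ < e^{bt}` for some `t > 0`.
-/

set_option autoImplicit false
set_option linter.unusedSectionVars false

namespace Pool.Agent.Results.MP_e5770a_an.PositiveGroups

open Filter Topology Set MeasureTheory Pool.Agent.U183.SG

section Defs

variable {H : Type*} [NormedAddCommGroup H] [InnerProductSpace ℝ H]

/-- A closed, normal and generating cone in the real Hilbert space `H`. -/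
structure IsOrderCone (P : Set H) : Prop where
  zero : (0 : H) ∈ P
  add : ∀ x ∈ P, ∀ y ∈ P, x + y ∈ P
  smul : ∀ r : ℝ, 0 ≤ r → ∀ x ∈ P, r • x ∈ P
  closed : IsClosed P
  /-- `‖x‖ ≤ c ‖y‖` whenever `0 ≤ x ≤ y` -/
  normal : ∃ c : ℝ, 0 < c ∧ ∀ x y : H, x ∈ P → y - x ∈ P → ‖x‖ ≤ c * ‖y‖
  generating : ∀ x : H, ∃ y ∈ P, ∃ z ∈ P, x = y - z

variable {E : Type*} [NormedAddCommGroup E] [InnerProductSpace ℂ E]

/-- `E`, with the embedding `ι : H → E`, is the complexification `H ⊕ iH` of the real Hilbert space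
`H`: the inner product of `E` extends the one of `H`, and `E = ι H + i ι H`. -/
structure IsComplexification (ι : H →ₗ[ℝ] E) : Prop where
  inner_eq : ∀ x y : H, inner ℂ (ι x) (ι y) = ((inner ℝ x y : ℝ) : ℂ)
  exists_re_im : ∀ v : E, ∃ x y : H, v = ι x + Complex.I • ι y

/-- A strongly continuous group of bounded operators. -/
structure IsC0Group (T : ℝ → E →L[ℂ] E) : Prop where
  zero : T 0 = ContinuousLinearMap.id ℂ E
  add : ∀ s t : ℝ, T (s + t) = (T s).comp (T t)
  cont : ∀ v : E, Continuous fun t => T t v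

/-- Every `T_t` is positive: it maps the cone `P` into itself. -/
def IsPositive (ι : H →ₗ[ℝ] E) (P : Set H) (T : ℝ → E →L[ℂ] E) : Prop :=
  ∀ t : ℝ, ∀ x ∈ P, ∃ y ∈ P, T t (ι x) = ι y

/-- `v` is in the domain of the generator `A` of `T`, and `A v = u`. -/
def IsGen (T : ℝ → E →L[ℂ] E) (v u : E) : Prop :=
  Tendsto (fun t : ℝ => ((t⁻¹ : ℝ) : ℂ) • (T t v - v)) (𝓝[≠] 0) (𝓝 u)

/-- The resolvent set of the generator: the `z` such that `z - A` has an everywhere defined
bounded inverse `R`. -/
def resolventSet (T : ℝ → E →L[ℂ] E) : Set ℂ :=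
  {z | ∃ R : E →L[ℂ] E, (∀ w, IsGen T (R w) (z • R w - w)) ∧
    ∀ v u, IsGen T v u → R (z • v - u) = v}

/-- The spectrum of the generator. -/
def spec (T : ℝ → E →L[ℂ] E) : Set ℂ := (resolventSet T)ᶜ

end Defs

variable {E : Type*} [NormedAddCommGroup E] [InnerProductSpace ℂ E] [CompleteSpace E]

theorem IsC0Group.isSG {T : ℝ → E →L[ℂ] E} (hT : IsC0Group T) : IsSG T where
  zero := hT.zero
  add s t _ _ := hT.add s t
  cont := hT.cont

theorem IsC0Group.reverse {T : ℝ → E →L[ℂ] E} (hT : IsC0Group T) : IsC0Group fun t => T (-t) where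
  zero := by simpa using hT.zero
  add s t := by
    rw [neg_add]
    exact hT.add _ _
  cont v := (hT.cont v).comp continuous_neg

theorem isGen_iff {T : ℝ → E →L[ℂ] E} (hT : IsC0Group T) (v u : E) : IsGen T v u ↔ Gen T v u := by
  have h0 : T 0 v = v := by rw [hT.zero]; rfl
  have hslope : ∀ t : ℝ, slope (fun t => T t v) 0 t = ((t⁻¹ : ℝ) : ℂ) • (T t v - v) := by
    intro t
    rw [slope, sub_zero, vsub_eq_sub, h0, Complex.coe_smul]
  constructor
  · intro h
    rw [Gen, hasDerivWithinAt_iff_tendsto_slope' (by simp)]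
    refine (h.mono_left (nhdsWithin_mono _ fun t ht => ?_)).congr fun t => (hslope t).symm
    exact ne_of_gt ht
  · intro h
    -- right derivatives at all points
    have hd : ∀ s : ℝ, HasDerivWithinAt (fun y : ℝ => T y v) (T s u) (Ioi s) s := by
      intro s
      have h1 : HasDerivWithinAt (fun y : ℝ => T (y - s) v) u (Ioi s) s := by
        have h2 : HasDerivWithinAt (fun y : ℝ => y - s) 1 (Ioi s) s :=
          ((hasDerivAt_id s).sub_const s).hasDerivWithinAt
        have h3 : HasDerivWithinAt (fun t => T t v) u (Ioi 0) (s - s) := by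
          rw [sub_self]; exact h
        have h4 := HasDerivWithinAt.scomp (h := fun y : ℝ => y - s) s h3 h2 (fun y hy => by
          simp only [mem_Ioi, sub_pos] at hy ⊢
          exact hy)
        simpa [Function.comp_def] using h4
      have h5 := (T s).restrictScalars ℝ |>.hasFDerivAt.comp_hasDerivWithinAt s h1
      have h6 : ∀ y, T y v = T s (T (y - s) v) := by
        intro y
        have := congrArg (fun A : E →L[ℂ] E => A v) (hT.add s (y - s))
        simpa using this
      exact h5.congr (fun y _ => h6 y) (h6 s)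
    have hc : Continuous fun s => T s u := hT.cont u
    have hint : ∀ t : ℝ, T t v = v + ∫ s in (0 : ℝ)..t, T s u := by
      intro t
      have := intervalIntegral.integral_eq_sub_of_hasDeriv_right (a := 0) (b := t)
        (f := fun y : ℝ => T y v) (f' := fun s : ℝ => T s u) (hT.cont v).continuousOn
        (fun s _ => hd s) (hc.intervalIntegrable _ _)
      rw [this, h0]
      abel
    have hderiv : HasDerivAt (fun t => T t v) u 0 := by
      have h1 : HasDerivAt (fun t : ℝ => ∫ s in (0 : ℝ)..t, T s u) (T 0 u) 0 :=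
        intervalIntegral.integral_hasDerivAt_right (hc.intervalIntegrable _ _)
          (hc.stronglyMeasurableAtFilter _ _) hc.continuousAt
      have h2 : T 0 u = u := by rw [hT.zero]; rfl
      rw [h2] at h1
      have h3 := h1.const_add v
      have h4 : (fun t => T t v) = fun t : ℝ => v + ∫ s in (0 : ℝ)..t, T s u := funext hint
      rw [h4]
      exact h3
    rw [hasDerivAt_iff_tendsto_slope] at hderiv
    exact hderiv.congr hslope

theorem mem_resolventSet {T : ℝ → E →L[ℂ] E} (hT : IsC0Group T) (z : ℂ) :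
    z ∈ resolventSet T ↔ ∃ R, IsRes T z R := by
  simp only [resolventSet, mem_ofPred_eq, IsRes, isGen_iff hT]

/-- **Main theorem.** Let `H ≠ 0` be a real Hilbert space ordered by a closed, normal, generating cone
`P`, let `E` be its complexification, and let `T` be a strongly continuous group of positive
operators on `E` with generator `A`. Then the spectral bound `s(A) = sup {Re z : z ∈ σ(A)}` and the
growth bound `ω₀ = lim log ‖T_t‖ / t` are finite and equal. -/
theorem result (H E : Type*) [NormedAddCommGroup H] [InnerProductSpace ℝ H] [CompleteSpace H]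
    [Nontrivial H] [NormedAddCommGroup E] [InnerProductSpace ℂ E] [CompleteSpace E]
    (ι : H →ₗ[ℝ] E) (hι : IsComplexification ι) (P : Set H) (hP : IsOrderCone P)
    (T : ℝ → E →L[ℂ] E) (hT : IsC0Group T) (hpos : IsPositive ι P T) :
    ∃ ω : ℝ, Tendsto (fun t : ℝ => Real.log ‖T t‖ / t) atTop (𝓝 ω) ∧
      IsLUB (Complex.re '' spec T) ω := by
  have hSG := hT.isSG
  -- the embedding is isometric
  have hιn : ∀ x, ‖ι x‖ = ‖x‖ := by
    intro x
    have h1 := congrArg Complex.re (hι.inner_eq x x)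
    rw [Complex.ofReal_re, real_inner_self_eq_norm_sq] at h1
    have h2 : ‖ι x‖ ^ 2 = ‖x‖ ^ 2 := by
      rw [← h1]
      exact (inner_self_eq_norm_sq (𝕜 := ℂ) (ι x)).symm
    exact (pow_left_inj₀ (norm_nonneg _) (norm_nonneg _) two_ne_zero).1 h2
  let ιi : H →ₗᵢ[ℝ] E := ⟨ι, hιn⟩
  obtain ⟨x0, hx0⟩ := exists_ne (0 : H)
  have hE : Nontrivial E := by
    refine ⟨⟨ι x0, 0, fun h => hx0 ?_⟩⟩
    have := hιn x0
    rw [h, norm_zero] at this
    exact norm_eq_zero.1 this.symm
  -- the cones
  have hK : IsCone (ι '' P) := by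
    refine ⟨?_, ⟨0, hP.zero, map_zero _⟩, ?_, ?_⟩
    · have h1 : Topology.IsClosedEmbedding ι := ιi.isometry.isClosedEmbedding
      exact h1.isClosedMap _ hP.closed
    · rintro _ ⟨x, hx, rfl⟩ _ ⟨y, hy, rfl⟩
      exact ⟨x + y, hP.add x hx y hy, map_add _ _ _⟩
    · rintro r hr _ ⟨x, hx, rfl⟩
      exact ⟨r • x, hP.smul r hr x hx, by rw [map_smul, Complex.coe_smul]⟩
  set P' : Set H := {φ | ∀ p ∈ P, 0 ≤ inner ℝ φ p} with hP'
  have hdual : DualNonneg (ι '' P) (ι '' P') := by
    rintro _ ⟨x, hx, rfl⟩ _ ⟨φ, hφ, rfl⟩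
    rw [hι.inner_eq]
    exact ⟨Complex.ofReal_im _, by rw [Complex.ofReal_re]; exact hφ x hx⟩
  have hspan_of : ∀ Q : Set H, (∀ x : H, ∃ y ∈ Q, ∃ z ∈ Q, x = y - z) →
      Submodule.span ℂ (ι '' Q) = ⊤ := by
    intro Q hQ
    rw [eq_top_iff]
    intro v _
    obtain ⟨x, y, rfl⟩ := hι.exists_re_im v
    have h1 : ∀ x : H, ι x ∈ Submodule.span ℂ (ι '' Q) := by
      intro x
      obtain ⟨y, hy, z, hz, rfl⟩ := hQ x
      rw [map_sub]
      exact Submodule.sub_mem _ (Submodule.subset_span ⟨y, hy, rfl⟩)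
        (Submodule.subset_span ⟨z, hz, rfl⟩)
    exact Submodule.add_mem _ (h1 x) (Submodule.smul_mem _ _ (h1 y))
  have hspan := hspan_of P hP.generating
  have hspan' : Submodule.span ℂ (ι '' P') = ⊤ := by
    refine hspan_of P' fun x => ?_
    obtain ⟨c, hc, hn⟩ := hP.normal
    obtain ⟨φ₁, φ₂, h1, h2, h3⟩ := dual_generating hP.zero hP.add hP.smul hc hn x
    exact ⟨φ₁, h1, φ₂, h2, h3⟩
  have hposT : ∀ t, 0 ≤ t → Pos (ι '' P) (T t) := by
    rintro t _ _ ⟨x, hx, rfl⟩
    obtain ⟨y, hy, hxy⟩ := hpos t x hx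
    exact ⟨y, hy, hxy.symm⟩
  -- lower bound of the norms
  obtain ⟨M, w, hM, hw, hMw⟩ := hT.reverse.isSG.exp_bound
  have hlow : ∀ t : ℝ, 0 ≤ t → -Real.log M - w * t ≤ Real.log ‖T t‖ := by
    intro t ht
    have h1 : (1 : ℝ) ≤ ‖T t‖ * (M * Real.exp (w * t)) := by
      have h2 : (T t).comp (T (-t)) = ContinuousLinearMap.id ℂ E := by
        rw [← hT.add, add_neg_cancel, hT.zero]
      calc (1 : ℝ) = ‖ContinuousLinearMap.id ℂ E‖ := ContinuousLinearMap.norm_id.symm
        _ = ‖(T t).comp (T (-t))‖ := by rw [h2]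
        _ ≤ ‖T t‖ * ‖T (-t)‖ := ContinuousLinearMap.opNorm_comp_le _ _
        _ ≤ ‖T t‖ * (M * Real.exp (w * t)) := by
            gcongr
            exact hMw t ht
    have h3 : 0 < ‖T t‖ := by
      rcases (norm_nonneg (T t)).eq_or_lt with h | h
      · rw [← h, zero_mul] at h1
        linarith
      · exact h
    have h4 := Real.log_le_log one_pos h1
    rw [Real.log_one, Real.log_mul h3.ne' (by positivity), Real.log_mul (by positivity)
      (Real.exp_ne_zero _), Real.log_exp] at h4
    linarith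
  have hpow : ∀ t : ℝ, 0 ≤ t → ∀ n : ℕ, 0 < n → Real.log ‖T (n * t)‖ ≤ n * Real.log ‖T t‖ := by
    intro t ht n hn
    rw [hSG.pow_nat ht, ← Real.log_pow]
    have h1 : 0 < ‖T t ^ n‖ := by
      rw [norm_pos_iff]
      intro h
      have h2 : T (n * t) = 0 := by rw [hSG.pow_nat ht, h]
      have h3 : (T (-(n * t))).comp (T (n * t)) = ContinuousLinearMap.id ℂ E := by
        rw [← hT.add, neg_add_cancel, hT.zero]
      rw [h2, ContinuousLinearMap.comp_zero] at h3
      have h4 : ‖ContinuousLinearMap.id ℂ E‖ = 1 := ContinuousLinearMap.norm_id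
      rw [← h3, norm_zero] at h4
      exact zero_ne_one h4
    exact Real.log_le_log h1 (norm_pow_le' _ hn)
  have hlow' : ∀ t : ℝ, 0 < t → -w ≤ Real.log ‖T t‖ / t := by
    intro t ht
    rw [le_div_iff₀ ht]
    by_contra hlt
    push Not at hlt
    obtain ⟨n, hn⟩ := exists_nat_gt (Real.log M / (-w * t - Real.log ‖T t‖))
    have hn0 : 0 < n := by
      have : (0 : ℝ) < n := lt_of_le_of_lt (div_nonneg (Real.log_nonneg hM) (by linarith)) hn
      exact_mod_cast this
    rw [div_lt_iff₀ (by linarith)] at hn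
    have h1 := hpow t ht.le n hn0
    have h2 := hlow (n * t) (by positivity)
    nlinarith
  set S : Set ℝ := {r | ∃ t : ℝ, 0 < t ∧ r = Real.log ‖T t‖ / t} with hS
  have hSb : BddBelow S := ⟨-w, by rintro r ⟨t, ht, rfl⟩; exact hlow' t ht⟩
  have hSne : S.Nonempty := ⟨_, 1, one_pos, rfl⟩
  set ω : ℝ := sInf S with hω
  have hpos' : ∀ t : ℝ, 0 < ‖T t‖ := by
    intro t
    rw [norm_pos_iff]
    intro h
    have h3 : (T (-t)).comp (T t) = ContinuousLinearMap.id ℂ E := by
      rw [← hT.add, neg_add_cancel, hT.zero]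
    rw [h, ContinuousLinearMap.comp_zero] at h3
    have h4 : ‖ContinuousLinearMap.id ℂ E‖ = 1 := ContinuousLinearMap.norm_id
    rw [← h3, norm_zero] at h4
    exact zero_ne_one h4
  have hlt_of : ∀ b : ℝ, ω < b → ∃ t : ℝ, 0 < t ∧ ‖T t‖ < Real.exp (t * b) := by
    intro b hb
    obtain ⟨r, ⟨t, ht, rfl⟩, hr⟩ := (csInf_lt_iff hSb hSne).1 hb
    refine ⟨t, ht, ?_⟩
    rw [div_lt_iff₀ ht] at hr
    rw [← Real.exp_log (hpos' t)]
    exact Real.exp_lt_exp.2 (by linarith)
  refine ⟨ω, ?_, ?_, ?_⟩
  · -- the limit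
    refine tendsto_order.2 ⟨fun a ha => ?_, fun a ha => ?_⟩
    · filter_upwards [eventually_gt_atTop 0] with t ht
      exact ha.trans_le (csInf_le hSb ⟨t, ht, rfl⟩)
    · obtain ⟨r, ⟨t0, ht0, rfl⟩, hr⟩ := (csInf_lt_iff hSb hSne).1 ha
      obtain ⟨M', hM', hMb⟩ := hSG.bound_Icc t0
      set ℓ := Real.log ‖T t0‖ with hℓ
      have h1 : ∀ t : ℝ, 0 < t → Real.log ‖T t‖ / t ≤ ℓ / t0 + (|ℓ| + Real.log M') / t := by
        intro t ht
        set n : ℕ := ⌊t / t0⌋₊ with hn
        have e1 : (n : ℝ) ≤ t / t0 := Nat.floor_le (by positivity)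
        have e2 : t / t0 < n + 1 := Nat.lt_floor_add_one _
        have e3 : (n : ℝ) * t0 ≤ t := by rwa [le_div_iff₀ ht0] at e1
        have e4 : t < (n + 1) * t0 := by rwa [div_lt_iff₀ ht0] at e2
        have e5 : T t = T (t - n * t0) * T t0 ^ n := by
          rw [← hSG.pow_nat ht0.le, ← hSG.add _ _ (by linarith) (by positivity)]
          congr 1
          ring
        have e6 : ‖T t‖ ≤ M' * ‖T t0‖ ^ n := by
          rw [e5]
          refine (norm_mul_le _ _).trans ?_
          refine mul_le_mul (hMb _ ⟨by linarith, by linarith⟩) ?_ (norm_nonneg _) (by linarith)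
          rcases Nat.eq_zero_or_pos n with h | h
          · rw [h, pow_zero, pow_zero]
            exact ContinuousLinearMap.norm_id_le
          · exact norm_pow_le' _ h
        have e7 : Real.log ‖T t‖ ≤ Real.log M' + n * ℓ := by
          have h8 := Real.log_le_log (hpos' t) e6
          rwa [Real.log_mul (by linarith) (pow_ne_zero _ (hpos' t0).ne'), Real.log_pow] at h8
        have e8 : (n : ℝ) * ℓ ≤ t / t0 * ℓ + |ℓ| := by
          have h9 : ((n : ℝ) - t / t0) * ℓ ≤ |ℓ| := by
            calc ((n : ℝ) - t / t0) * ℓ ≤ |((n : ℝ) - t / t0) * ℓ| := le_abs_self _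
              _ = |(n : ℝ) - t / t0| * |ℓ| := abs_mul _ _
              _ ≤ 1 * |ℓ| := by
                  gcongr
                  rw [abs_le]
                  constructor <;> linarith
              _ = |ℓ| := one_mul _
          linarith
        rw [div_le_iff₀ ht]
        calc Real.log ‖T t‖ ≤ Real.log M' + (t / t0 * ℓ + |ℓ|) := by linarith
          _ = (ℓ / t0 + (|ℓ| + Real.log M') / t) * t := by
            field_simp
            ring
      have h2 : Tendsto (fun t : ℝ => ℓ / t0 + (|ℓ| + Real.log M') / t) atTop (𝓝 (ℓ / t0 + 0)) :=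
        tendsto_const_nhds.add (tendsto_const_nhds.div_atTop tendsto_id)
      rw [add_zero] at h2
      filter_upwards [h2.eventually_lt_const hr, eventually_gt_atTop 0] with t ht ht0'
      exact (h1 t ht0').trans_lt ht
  · -- upper bound
    rintro _ ⟨z, hz, rfl⟩
    by_contra hlt
    push Not at hlt
    obtain ⟨t, ht, hlt'⟩ := hlt_of z.re hlt
    obtain ⟨Q, -, -, hQ⟩ := res_of_norm_lt hSG ht.le hlt'
    exact hz ((mem_resolventSet hT z).2 ⟨_, hQ⟩)
  · -- least upper bound
    intro b hb
    refine le_of_forall_gt fun b' hb' => ?_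
    have hres : ∀ c : ℝ, b' ≤ c → ∃ R, IsRes T (c : ℂ) R := by
      intro c hc
      rw [← mem_resolventSet hT]
      by_contra hcon
      have h1 : c ≤ b := hb ⟨(c : ℂ), hcon, Complex.ofReal_re c⟩
      linarith
    obtain ⟨L, hL, hlt⟩ := growth hSG hK hposT hdual hspan hspan' hres
    refine (csInf_le hSb ⟨L, hL, rfl⟩).trans_lt ?_
    rw [div_lt_iff₀ hL]
    have h1 := Real.log_lt_log (hpos' L) hlt
    rwa [Real.log_exp] at h1

end Pool.Agent.Results.MP_e5770a_an.PositiveGroups
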